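import Pool.Agent.Run7.h755.MG.Main

/-!
# MP_db9079_lc: multiplicative cyclic groups in F_p((t))

Write `K` for the field `F_p((t))`, with the valuation or with any other unary predicate `P`.
Let `u ≠ 0` be an element of `K` of infinite multiplicative order; for example `u = 1 + t`.

Theorem. If a set `S` with `u ^ ℤ ⊆ S ⊆ cl (u ^ ℤ)` is definable, with parameters, in the structure
`(K, P)`, then true arithmetic is reducible to the theory of `(K, P)`. In particular

* the field `K` with a predicate for the infinite cyclic group `u ^ ℤ` is undecidable (and its theory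
  is not recursively enumerable), for every `u` of infinite order, and so is the field `K` with a
  predicate for the closure of this group (`u ^ (ℤ_p)` if `u` is a one-unit);
* (`P` the valuation ring) if the theory `T_p` of the valued field `F_p((t))` is decidable, or if
  only true arithmetic is not reducible to it, then no infinite procyclic subgroup of `K^×`, no
  infinite cyclic subgroup, and no set between a cyclic group and its closure is definable in
  the valued field.

For `u` with `v(u) ≠ 0` the group is discrete, and the theorem is a case of the start result on scattered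
sets. For a one-unit `u = 1 + s`, `e = v(s) > 0`, nothing is isolated: the group `u ^ ℤ` is dense in itself and its closure
is a Cantor set.

Proof for one-units. The coefficient functional `z ↦ z_0` is definable with the parameter `t` (start result).
The series `s ^ j` have the distinct valuations `e j`. So for every function `f` on `ℤ / p ^ N` there is a
`y` in `K` with `v(y) > - e p ^ N` and `(u ^ n y)_0 = f(n)` for all `n < p ^ N`, hence, because of
`u ^ (p ^ N) = 1 + s ^ (p ^ N)`, for all `n`: the sets `{h | (h y)_0 = 0}` are, inside `S`, all the sets given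
by a set of residue classes modulo a power of `p`. Hence the field can speak about all clopen subsets of `S`.
Consider the intersection of all those which contain `u` and are closed under `h ↦ h ^ p`. It is the
set `{u ^ (p ^ i)} ∪ {1}`: an integer `n` which is neither `0` nor a power of `p` is, modulo a large power
`p ^ N`, outside the set of the residues of `0, 1, p, ..., p ^ (N - 1)`, which is closed under
multiplication by `p`. The set is infinite and scattered, and so the start result
`UniformFiniteness` applies. For a unit `u` one uses the one-unit `u ^ (p - 1)`.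
-/

set_option autoImplicit false

namespace Pool.Agent.Results.MP_db9079_lc.CyclicGroups

open Pool.Agent.Y924.EL
open Pool.Agent.Results.MP_db9079_lc.UniformFiniteness
open Pool.Agent.Run7.h755.MG

variable (p : ℕ) [Fact p.Prime]

/-- the cyclic group generated by `u` -/
def Cyc {p : ℕ} [Fact p.Prime] (u : LaurentSeries (ZMod p)) : Set (LaurentSeries (ZMod p)) :=
  {x | ∃ n : ℤ, u ^ n = x}

/-- the closure of `S` in the topology of `F_p((t))` -/
def Cl {p : ℕ} [Fact p.Prime] (S : Set (LaurentSeries (ZMod p))) : Set (LaurentSeries (ZMod p)) :=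
  {x | ∀ b : LaurentSeries (ZMod p), b ≠ 0 → ∃ a ∈ S, ∃ z ∈ ValRing p, a + b * z = x}

theorem main (P : Set (LaurentSeries (ZMod p))) (φ : Fm) (v : ℕ → LaurentSeries (ZMod p))
    (u : LaurentSeries (ZMod p)) (hu0 : u ≠ 0) (hu : ∀ n : ℕ, 0 < n → u ^ n ≠ 1)
    (h1 : Cyc u ⊆ Dfn p P φ v) (h2 : Dfn p P φ v ⊆ Cl (Cyc u)) :
    Arith p P ∧ ¬ REPred (InTh p P) := by
  have h : ¬ Tame p P := by
    refine not_tame P φ v u hu0 hu (fun n => h1 ⟨n, rfl⟩) fun x hx k => ?_
    obtain ⟨a, ⟨n, rfl⟩, ha⟩ := V_of_cl (Cyc u) x (h2 hx) k
    exact ⟨n, ha⟩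
  exact ⟨(dichotomy p P).resolve_left h, fun h' => h (tame p P h')⟩

theorem result : ∀ (p : ℕ) [Fact p.Prime] (u : LaurentSeries (ZMod p)), u ≠ 0 →
    (∀ n : ℕ, 0 < n → u ^ n ≠ 1) →
    -- the field with a predicate for the group, for its closure, or for any set between them
    (∀ P : Set (LaurentSeries (ZMod p)), Cyc u ⊆ P → P ⊆ Cl (Cyc u) →
      Arith p P ∧ ¬ REPred (InTh p P)) ∧
    -- such a set is not definable, with parameters, in the field with any unary predicate,
    -- unless true arithmetic is reducible to the theory
    (∀ (P : Set (LaurentSeries (ZMod p))) (φ : Fm) (v : ℕ → LaurentSeries (ZMod p)),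
      Cyc u ⊆ Dfn p P φ v → Dfn p P φ v ⊆ Cl (Cyc u) → Arith p P ∧ ¬ REPred (InTh p P)) ∧
    -- the case of the valued field itself
    ((REPred (InTh p (ValRing p)) ∨ ¬ Arith p (ValRing p)) →
      ∀ (φ : Fm) (v : ℕ → LaurentSeries (ZMod p)),
        ¬ (Cyc u ⊆ Dfn p (ValRing p) φ v ∧ Dfn p (ValRing p) φ v ⊆ Cl (Cyc u))) := by
  intro p _ u hu0 hu
  refine ⟨fun P h1 h2 => ?_, fun P φ v h1 h2 => main p P φ v u hu0 hu h1 h2, ?_⟩
  · have h3 : Dfn p P (.val 0) 0 = P := by
      ext x
      simp [Dfn, Sat]
    exact main p P (.val 0) 0 u hu0 hu (by rwa [h3]) (by rwa [h3])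
  · rintro h φ v ⟨h1, h2⟩
    obtain ⟨h3, h4⟩ := main p (ValRing p) φ v u hu0 hu h1 h2
    exact h.elim h4 fun h5 => h5 h3

end Pool.Agent.Results.MP_db9079_lc.CyclicGroups
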