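import Pool.Agent.Results.MP_db9079_lc.LocallyFiniteValues
import Pool.Agent.Run7.h271.DE.Form

/-!
# MP_db9079_lc: the degree of a definable endomorphism of F_p((t)) is a power of p

Write `K` for the field `F_p((t))`, with the valuation or with any other unary predicate `P`. Let `σ`
be a ring endomorphism of `K` (not assumed to be continuous), and let `m = v (σ t)` be its
ramification index (the degree of `K` over `σ K`).

Theorem. Suppose that `m` is not a power of `p`. Then the field `K` with `σ` is undecidable: true
arithmetic is reducible to its theory, and this holds for every `(K, P)` in which `σ` is definable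
with parameters. So if the theory `T_p` of the valued field `F_p((t))` is decidable, or if only true
arithmetic is not reducible to it, then the ramification index of every definable field endomorphism of
`F_p((t))` is a power of `p` (as it is for the Frobenius endomorphism and its powers).

The case in which `p` does not divide `m` is the result `FieldEndomorphisms` of helper755, proved with
a coordinate `u` such that `σ(u) = c u ^ m`. If `p` divides `m` there is no such coordinate in
general (for instance `σ(t) = t ^ 6 + t ^ 7`, `p = 2`).

Proof. One-units have all roots of order prime to `p`, so `σ` maps one-units to one-units and multiplies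
the valuation by `m > 0`. Write `m = q N`, `q = p ^ a`, `p ∤ N`, `N ≥ 2`, and let `λ` be the decimation
`λ(Σ x_n t ^ n) = Σ x_(q n) t ^ n`. The set `S = {y | λ(σ y) = y ^ N}` is definable: `λ(z) = c` if and only if
`((z - c ^ q) w ^ q)_0 = 0` for all `w`, and the functional `z ↦ z_0` is definable (start result).
For `n` divisible by `p - 1` it has an element `y = t ^ n w`, `w` a one-unit, as
`w ↦ t ^ (- N n) λ(σ(t ^ n w))` is a contraction of the one-units and `p` does not divide `N`. And it is
discrete outside 0: if `y` and `y (1 + s)`, `v(s) = j > 0`, are in `S`, then `λ(σ(y s))` has a valuation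
`≥ N (v(y) + j)` and `y ^ N ((1 + s) ^ N - 1)` has the valuation `N v(y) + j`, a contradiction to
`N ≥ 2`. So `S` is infinite and scattered, and `UniformFiniteness` applies.
-/

set_option autoImplicit false

namespace Pool.Agent.Results.MP_db9079_lc.EndomorphismDegrees

open Pool.Agent.Y924.EL Pool.Agent.Y924.UF
open Pool.Agent.Results.MP_db9079_lc.UniformFiniteness
open Pool.Agent.Results.MP_db9079_lc.LocallyFiniteValues
open Function

/-- the graph of `σ` -/
def Graph {p : ℕ} [Fact p.Prime] (σ : LaurentSeries (ZMod p) →+* LaurentSeries (ZMod p)) :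
    (Fin 1 → LaurentSeries (ZMod p)) → (Fin 1 → LaurentSeries (ZMod p)) → Prop :=
  fun x y => y 0 = σ (x 0)

variable (p : ℕ) [hp : Fact p.Prime]

theorem main (P : Set (LaurentSeries (ZMod p))) (φ : Fm) (v : ℕ → LaurentSeries (ZMod p))
    (σ : LaurentSeries (ZMod p) →+* LaurentSeries (ZMod p))
    (h1 : ∀ a : ℕ, (σ (HahnSeries.single 1 1)).order ≠ ((p ^ a : ℕ) : ℤ))
    (h3 : DRel p P φ 1 1 v = Graph σ) : Arith p P ∧ ¬ REPred (InTh p P) := by
  have h : ¬ Tame p P := by
    obtain ⟨m, hm0, hm⟩ := Pool.Agent.Run7.h271.DE.exists_mult σ
    have ho : (σ (HahnSeries.single 1 1)).order = (m : ℤ) := by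
      have := hm (HahnSeries.single 1 1) (HahnSeries.single_ne_zero one_ne_zero)
      rwa [HahnSeries.order_single one_ne_zero, mul_one] at this
    rw [ho] at h1
    obtain ⟨a, N, hN, hmN⟩ := Nat.exists_eq_pow_mul_and_not_dvd hm0.ne' p hp.out.ne_one
    have hN2 : 2 ≤ N := by
      rcases (show N = 0 ∨ N = 1 ∨ 2 ≤ N by omega) with h | h | h
      · exfalso
        exact hN (h ▸ dvd_zero p)
      · exfalso
        rw [h, mul_one] at hmN
        exact h1 a (by rw [hmN])
      · exact h
    rw [hmN] at hm
    refine Pool.Agent.Run7.h271.DE.not_tame P φ v σ (fun x y => ?_) a N hN hN2 hm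
    have e2 := congrFun (congrFun h3 fun _ => x) fun _ => y
    have e3 : DRel p P φ 1 1 v (fun _ => x) (fun _ => y) ↔ y = σ x := by
      rw [e2]
      rfl
    rw [eq_comm, ← e3]
    unfold DRel
    have e4 : (update (update v 0 x) 1 y) = (fun i => if h : i < 1 then x else
        if h' : i - 1 < 1 then y else v i) := by
      funext i
      rcases i with _ | _ | i
      · simp
      · simp
      · rw [update_of_ne (by omega), update_of_ne (by omega), dif_neg (by omega),
          dif_neg (by omega)]
    rw [e4]
  exact ⟨(dichotomy p P).resolve_left h, fun h' => h (tame p P h')⟩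

theorem result : ∀ (p : ℕ) [Fact p.Prime]
    (σ : LaurentSeries (ZMod p) →+* LaurentSeries (ZMod p)),
    -- the ramification index is not a power of `p`
    (∀ a : ℕ, (σ (HahnSeries.single 1 1)).order ≠ ((p ^ a : ℕ) : ℤ)) →
    -- the field with a predicate which codes the graph of the endomorphism
    (Arith p (Codes p (Graph σ)) ∧ ¬ REPred (InTh p (Codes p (Graph σ)))) ∧
    -- the endomorphism is not definable, with parameters, in the field with any unary predicate,
    -- unless true arithmetic is reducible to the theory
    (∀ (P : Set (LaurentSeries (ZMod p))) (φ : Fm) (v : ℕ → LaurentSeries (ZMod p)),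
      DRel p P φ 1 1 v = Graph σ → Arith p P ∧ ¬ REPred (InTh p P)) ∧
    -- the case of the valued field itself
    ((REPred (InTh p (ValRing p)) ∨ ¬ Arith p (ValRing p)) →
      ∀ (φ : Fm) (v : ℕ → LaurentSeries (ZMod p)), DRel p (ValRing p) φ 1 1 v ≠ Graph σ) := by
  intro p _ σ h1
  refine ⟨?_, fun P φ v h3 => main p P φ v σ h1 h3, ?_⟩
  · refine main p _ (Pool.Agent.R794.FP.relF p (1 + 1))
      (fun _ => HahnSeries.single (1 : ℤ) (1 : ZMod p)) σ h1 ?_
    rw [codes_eq]
    exact Pool.Agent.R794.FP.rel_cdSet (Graph σ) _ rfl
  · rintro h φ v h3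
    obtain ⟨h4, h5⟩ := main p (ValRing p) φ v σ h1 h3
    exact h.elim h5 fun h6 => h6 h4

end Pool.Agent.Results.MP_db9079_lc.EndomorphismDegrees
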