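import Pool.Agent.Run7.h755.MG.Main2

/-!
# MP_db9079_lc: additive groups generated by the conjugates s, s^p, s^(p^2), ... in F_p((t))

Write `K` for the field `F_p((t))`, with the valuation or with any other unary predicate `P`, and `M_s` for
the additive group generated by the powers `s ^ (p ^ i)`, `i = 0, 1, 2, ...`, the cyclic module
`F_p[Frob] s` over the ring of the additive polynomials with coefficients in `F_p`. Let `s` be any
element of `K` which is not in `F_p`.

Theorem. If a set `S` with `M_s ⊆ S ⊆ cl (M_s)` is definable, with parameters, in the structure `(K, P)`, then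
true arithmetic is reducible to the theory of `(K, P)`. In particular

* the field `K` with a predicate for the group `M_s`, or for its closure (for `v(s) > 0` the group of
  all series `c_0 s + c_1 s ^ p + c_2 s ^ (p ^ 2) + ...` with `c_i` in `F_p`), is undecidable;
* (`P` the valuation ring) if the theory `T_p` of the valued field `F_p((t))` is decidable, or if
  only true arithmetic is not reducible to it, then no set between an infinite cyclic
  `F_p[Frob]`-module and its closure is definable in the valued field.

For `v(s) < 0` the group is discrete. For `v(s) ≥ 0` its closure is compact and it is neither discrete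
nor cocompact (the two cases treated in the start result `ClosedSubgroups`), and no scattered
set is visible.

Proof for `v(s) > 0` (the general case follows with `s ^ p - s` and the set of the `g ^ p - g`). The
coefficient functional `z ↦ z_0` is definable. Because the series `s ^ k` have distinct valuations, and
because `p ^ i + p ^ j` determines `{i, j}`, every symmetric bilinear form of finite support in the
coordinates of the closure is of the form `(z, w) ↦ (z w y)_0` with one `y` in `K`. Consider the pairs
`(y, y')` such that `(s s y)_0 ≠ 0`, `(s w^p y)_0 = 0` for all `w` in `S`, and `(((z w)^p - z w) y)_0 = 0` for all `z, w`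
in `S` with `(z y')_0 = 0`. For the matrix `b` of the form and for the coordinates `l_i` of the
functional `y'` this says `b_(i+1,j+1) - b_ij = C l_i l_j`, `b_00 ≠ 0`, `b_0j = 0` for `j > 0`; as all is finite, the sum gives
`Σ l_r l_(r+j) = 0` for all `j > 0`, and so only one `l_i` is not zero; and every `i` occurs, with the form
`Σ_(a ≤ i) z_a w_a`. So the coordinate functionals are uniformly definable, up to a factor, and therefore
also the set of the elements of `S` with at most one nonzero coordinate: the set of the `c s ^ (p ^ i)`, `c` in `F_p`, in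
`S`. It is infinite and scattered, and the start result `UniformFiniteness` applies.
-/

set_option autoImplicit false

namespace Pool.Agent.Results.MP_db9079_lc.FrobeniusModules

open Pool.Agent.Y924.EL
open Pool.Agent.Results.MP_db9079_lc.UniformFiniteness
open Pool.Agent.Run7.h755.MG (not_tame_add V_of_cl MM)

variable (p : ℕ) [Fact p.Prime]

/-- the additive group generated by the powers `s ^ (p ^ i)` -/
def Mod {p : ℕ} [Fact p.Prime] (s : LaurentSeries (ZMod p)) : Set (LaurentSeries (ZMod p)) :=
  {x | x ∈ AddSubgroup.closure (Set.range fun i : ℕ => s ^ p ^ i)}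

/-- the closure of `S` in the topology of `F_p((t))` -/
def Cl {p : ℕ} [Fact p.Prime] (S : Set (LaurentSeries (ZMod p))) : Set (LaurentSeries (ZMod p)) :=
  {x | ∀ b : LaurentSeries (ZMod p), b ≠ 0 → ∃ a ∈ S, ∃ z ∈ ValRing p, a + b * z = x}

theorem main (P : Set (LaurentSeries (ZMod p))) (φ : Fm) (v : ℕ → LaurentSeries (ZMod p))
    (s : LaurentSeries (ZMod p)) (hs : s ^ p ≠ s)
    (h1 : Mod s ⊆ Dfn p P φ v) (h2 : Dfn p P φ v ⊆ Cl (Mod s)) :
    Arith p P ∧ ¬ REPred (InTh p P) := by
  have h : ¬ Tame p P := by
    refine not_tame_add P φ v s hs (fun a ha => h1 ha) fun x hx k => ?_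
    obtain ⟨a, ha, hV⟩ := V_of_cl (Mod s) x (h2 hx) k
    exact ⟨a, ha, hV⟩
  exact ⟨(dichotomy p P).resolve_left h, fun h' => h (tame p P h')⟩

theorem result : ∀ (p : ℕ) [Fact p.Prime] (s : LaurentSeries (ZMod p)), s ^ p ≠ s →
    -- the field with a predicate for the group, for its closure, or for any set between them
    (∀ P : Set (LaurentSeries (ZMod p)), Mod s ⊆ P → P ⊆ Cl (Mod s) →
      Arith p P ∧ ¬ REPred (InTh p P)) ∧
    -- such a set is not definable, with parameters, in the field with any unary predicate,
    -- unless true arithmetic is reducible to the theory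
    (∀ (P : Set (LaurentSeries (ZMod p))) (φ : Fm) (v : ℕ → LaurentSeries (ZMod p)),
      Mod s ⊆ Dfn p P φ v → Dfn p P φ v ⊆ Cl (Mod s) → Arith p P ∧ ¬ REPred (InTh p P)) ∧
    -- the case of the valued field itself
    ((REPred (InTh p (ValRing p)) ∨ ¬ Arith p (ValRing p)) →
      ∀ (φ : Fm) (v : ℕ → LaurentSeries (ZMod p)),
        ¬ (Mod s ⊆ Dfn p (ValRing p) φ v ∧ Dfn p (ValRing p) φ v ⊆ Cl (Mod s))) := by
  intro p _ s hs
  refine ⟨fun P h1 h2 => ?_, fun P φ v h1 h2 => main p P φ v s hs h1 h2, ?_⟩
  · have h3 : Dfn p P (.val 0) 0 = P := by
      ext x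
      simp [Dfn, Sat]
    exact main p P (.val 0) 0 s hs (by rwa [h3]) (by rwa [h3])
  · rintro h φ v ⟨h1, h2⟩
    obtain ⟨h3, h4⟩ := main p (ValRing p) φ v s hs h1 h2
    exact h.elim h4 fun h5 => h5 h3

end Pool.Agent.Results.MP_db9079_lc.FrobeniusModules
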