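import Pool.Agent.Run7.h755.LO.Loc
import Pool.Agent.Results.MP_db9079_lc.LocallyFiniteValues

/-!
# MP_db9079_lc: linear orders on subsets of F_p((t))

Write `K` for the field `F_p((t))`, with the valuation or with any other unary predicate `P`.

Theorem. Let `D` be an infinite subset of `K` with a linear order. Suppose that every `x` in `D` has a
neighbourhood `U` such that all sets `{z in D ∩ U | z ≤ y}`, `y` in `D`, are closed in `K`, or that all sets
`{z in D ∩ U | y ≤ z}` are. For example `D` may be locally closed (open or closed, say) with a linear
order whose order topology is coarser than the topology of `D`, such as the lexicographic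
order of `K`, or any countable set with an order of type `ω`. Then the field `K` with `(D, ≤)` is
undecidable: true arithmetic is reducible to its theory, and to that of every `(K, P)` in which
the order is definable with parameters. So if the theory `T_p` of the valued field `F_p((t))` is
decidable, or if only true arithmetic is not reducible to it, then no such linear order
is definable in the valued field, although the value group is an ordered group.

Proof. Suppose first that all initial segments are closed, and let `B` be a ball which meets `D`.
If `B` is cut into `p` smaller balls then one of them meets `D` coinitially in `B`, that is, for every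
`y` in `D ∩ B` there is a `z ≤ y` in `D` in this smaller ball. (Otherwise there is a bad `y` for each of the
`p` smaller balls, and the least of them gives a contradiction.) So there is a decreasing sequence
of such balls, and because the initial segments are closed its limit is the least element of
`D ∩ B`. The least elements of the balls of radius `b` in a ball of radius `c` are a finite set which
is definable with the parameters `b`, `c`. If `(K, P)` has uniform finiteness (the start result
`UniformFiniteness`) then the number of these least elements is bounded, and so `D` is finite. In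
general this applies to the sets `D ∩ U`, so `D` is discrete, and the start result applies again.
-/

set_option autoImplicit false

namespace Pool.Agent.Results.MP_db9079_lc.LinearOrders

open Pool.Agent.Y924.EL Pool.Agent.Y924.UF
open Pool.Agent.Results.MP_db9079_lc.UniformFiniteness
open Pool.Agent.Results.MP_db9079_lc.LocallyFiniteValues
open Pool.Agent.Run7.h755.LO (LinOrd Ball finite_loc)
open Function

/-- the relation `R`, between points of `K^1` -/
def Rel {p : ℕ} (R : LaurentSeries (ZMod p) → LaurentSeries (ZMod p) → Prop) :
    (Fin 1 → LaurentSeries (ZMod p)) → (Fin 1 → LaurentSeries (ZMod p)) → Prop :=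
  fun x y => R (x 0) (y 0)

variable (p : ℕ) [Fact p.Prime]

/-- every point `x` of the set `{x | R x x}` has a neighbourhood `x + b F_p[[t]]` such that the initial
segments of `R` in it are closed, or the final segments of `R` in it are closed -/
def LocClosedOrd (R : LaurentSeries (ZMod p) → LaurentSeries (ZMod p) → Prop) : Prop :=
  ∀ x, R x x → ∃ b : LaurentSeries (ZMod p), b ≠ 0 ∧
    ((∀ y, R y y → ClosedSet p {z | R z y ∧ Ball b x z}) ∨
      (∀ y, R y y → ClosedSet p {z | R y z ∧ Ball b x z}))

theorem main (P : Set (LaurentSeries (ZMod p))) (φ : Fm) (v : ℕ → LaurentSeries (ZMod p))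
    (R : LaurentSeries (ZMod p) → LaurentSeries (ZMod p) → Prop) (h1 : LinOrd R)
    (h2 : {x | R x x}.Infinite) (h3 : LocClosedOrd p R)
    (h4 : DRel p P φ 1 1 v = Rel R) : Arith p P ∧ ¬ REPred (InTh p P) := by
  have h : ¬ Tame p P := by
    intro hT
    refine h2 (finite_loc P hT φ v R (fun x y => ?_) h1 h3)
    have e2 := congrFun (congrFun h4 fun _ => x) fun _ => y
    have e3 : DRel p P φ 1 1 v (fun _ => x) (fun _ => y) ↔ R x y := by
      rw [e2]
      rfl
    rw [← e3]
    unfold DRel
    have e4 : (update (update v 0 x) 1 y) = (fun i => if h : i < 1 then x else
        if h' : i - 1 < 1 then y else v i) := by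
      funext i
      rcases i with _ | _ | i
      · simp
      · simp
      · rw [update_of_ne (by omega), update_of_ne (by omega), dif_neg (by omega),
          dif_neg (by omega)]
    rw [e4]
  exact ⟨(dichotomy p P).resolve_left h, fun h' => h (tame p P h')⟩

theorem result : ∀ (p : ℕ) [Fact p.Prime]
    (R : LaurentSeries (ZMod p) → LaurentSeries (ZMod p) → Prop),
    -- `R` is a linear order on the infinite set of the `x` with `R x x`
    LinOrd R → {x | R x x}.Infinite →
    -- its initial segments or its final segments are locally closed
    LocClosedOrd p R →
    -- the field with a predicate which codes the order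
    (Arith p (Codes p (Rel R)) ∧ ¬ REPred (InTh p (Codes p (Rel R)))) ∧
    -- the order is not definable, with parameters, in the field with any unary predicate,
    -- unless true arithmetic is reducible to the theory
    (∀ (P : Set (LaurentSeries (ZMod p))) (φ : Fm) (v : ℕ → LaurentSeries (ZMod p)),
      DRel p P φ 1 1 v = Rel R → Arith p P ∧ ¬ REPred (InTh p P)) ∧
    -- the case of the valued field itself
    ((REPred (InTh p (ValRing p)) ∨ ¬ Arith p (ValRing p)) →
      ∀ (φ : Fm) (v : ℕ → LaurentSeries (ZMod p)), DRel p (ValRing p) φ 1 1 v ≠ Rel R) := by
  intro p _ R h1 h2 h3
  refine ⟨?_, fun P φ v h4 => main p P φ v R h1 h2 h3 h4, ?_⟩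
  · refine main p _ (Pool.Agent.R794.FP.relF p (1 + 1))
      (fun _ => HahnSeries.single (1 : ℤ) (1 : ZMod p)) R h1 h2 h3 ?_
    rw [codes_eq]
    exact Pool.Agent.R794.FP.rel_cdSet (Rel R) _ rfl
  · rintro h φ v h4
    obtain ⟨h5, h6⟩ := main p (ValRing p) φ v R h1 h2 h3 h4
    exact h.elim h6 fun h7 => h7 h5

end Pool.Agent.Results.MP_db9079_lc.LinearOrders
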